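import Pool.Agent.helper94.PL.Spec

/-!
# BIN: injectivity of the inverse of the Böttcher coordinate
-/

set_option autoImplicit false

open Complex Metric Set Filter Topology MeasureTheory MPS
open Pool.Agent.helper16.Multibrot

noncomputable section

namespace PLY

theorem BIN_loc {n : ℕ} {c : ℂ} {E : ℂ → ℂ} (h : BE n c 1 E) :
    ∃ δ > (0 : ℝ), ∀ a ∈ ball (0 : ℂ) δ, ∀ b ∈ ball (0 : ℂ) δ, a / E a = b / E b → a = b := by
  have hE : AnalyticAt ℂ E 0 :=
    h.hol.analyticAt (isOpen_ball.mem_nhds (mem_ball_self one_pos))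
  have hE0 : E 0 ≠ 0 := by rw [h.one]; exact one_ne_zero
  have hd : HasDerivAt E (deriv E 0) 0 := hE.differentiableAt.hasDerivAt
  have hX : HasDerivAt (fun v : ℂ => v / E v) 1 0 := by
    have := (hasDerivAt_id' (0 : ℂ)).fun_div hd hE0
    refine this.congr_deriv ?_
    simp [h.one]
  have hXa : AnalyticAt ℂ (fun v : ℂ => v / E v) 0 := analyticAt_id.div hE hE0
  have hs : HasStrictDerivAt (fun v : ℂ => v / E v) 1 0 := by
    have := hXa.hasStrictDerivAt
    rwa [hX.deriv] at this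
  have h1 := hs.isLittleO.def (c := 1 / 2) (by norm_num)
  obtain ⟨δ, hδ, h2⟩ := Metric.eventually_nhds_iff_ball.1 h1
  refine ⟨δ, hδ, fun a ha b hb hab => ?_⟩
  have h4 := h2 (a, b) (by rw [← ball_prod_same]; exact ⟨ha, hb⟩)
  simp only [hab, sub_self, ContinuousLinearMap.toSpanSingleton_apply, smul_eq_mul, mul_one,
    zero_sub, norm_neg] at h4
  have h5 : ‖a - b‖ = 0 := by
    have := norm_nonneg (a - b)
    linarith
  exact sub_eq_zero.1 (norm_eq_zero.1 h5)

theorem BIN (hBRO : BRO_stmt) (hBNZ : BNZ_stmt) (hBIT : BIT_stmt) : BIN_stmt := by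
  intro n c E hn hc hE
  obtain ⟨δ, hδ, hinj⟩ := BIN_loc hE
  have hchi : ∀ w : ℂ, chi E w = (w⁻¹ / E w⁻¹)⁻¹ := by
    intro w
    rw [chi, inv_div, div_inv_eq_mul, mul_comm]
  have key : ∀ (j : ℕ) (w w' : ℂ), 1 < ‖w‖ → 1 < ‖w'‖ → 1 / δ < ‖w‖ ^ (n ^ j) →
      1 / δ < ‖w'‖ ^ (n ^ j) → chi E w = chi E w' → w = w' := by
    intro j
    induction j with
    | zero =>
      intro w w' hw hw' h1 h2 h
      rw [pow_zero, pow_one] at h1 h2
      have hb : ∀ u : ℂ, 1 < ‖u‖ → 1 / δ < ‖u‖ → u⁻¹ ∈ ball (0 : ℂ) δ := by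
        intro u hu hu2
        rw [mem_ball_zero_iff, norm_inv]
        rw [inv_lt_comm₀ (by linarith) hδ]
        rwa [one_div] at hu2
      rw [hchi, hchi, inv_inj] at h
      exact inv_injective (hinj _ (hb w hw h1) _ (hb w' hw' h2) h)
    | succ j ih =>
      intro w w' hw hw' h1 h2 h
      have e1 := (hBIT n c E hn hE w hw).1 1
      have e2 := (hBIT n c E hn hE w' hw').1 1
      rw [pow_one] at e1 e2
      have hn0 : n ≠ 0 := by omega
      have h3 : w ^ n = w' ^ n := by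
        refine ih (w ^ n) (w' ^ n) ?_ ?_ ?_ ?_ ?_
        · rw [norm_pow]
          exact one_lt_pow₀ hw hn0
        · rw [norm_pow]
          exact one_lt_pow₀ hw' hn0
        · rw [norm_pow, ← pow_mul, ← pow_succ']
          exact h1
        · rw [norm_pow, ← pow_mul, ← pow_succ']
          exact h2
        · rw [← e1, ← e2, h]
      have hw0 : w ≠ 0 := norm_pos_iff.1 (by linarith)
      have hw0' : w' ≠ 0 := norm_pos_iff.1 (by linarith)
      have hζ : (w' / w) ^ n = 1 := by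
        rw [div_pow, h3, div_self (pow_ne_zero n hw0')]
      have hmem : w'⁻¹ ∈ ball (0 : ℂ) 1 := by
        rw [mem_ball_zero_iff, norm_inv]
        exact inv_lt_one_of_one_lt₀ hw'
      have h4 := hBRO n c E hn hc hE (w' / w) hζ w'⁻¹ hmem
      have h5 : w' / w * w'⁻¹ = w⁻¹ := by
        field_simp
      rw [h5] at h4
      have h6 : chi E w' ≠ 0 := ((hBNZ n c E hn hc hE).2 w' hw').1
      rw [chi, chi, h4] at h
      rw [chi] at h6
      exact mul_right_cancel₀ (right_ne_zero_of_mul h6) h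
  intro w hw w' hw' h
  have hlim : ∀ u : ℂ, 1 < ‖u‖ → ∀ᶠ j : ℕ in atTop, 1 / δ < ‖u‖ ^ (n ^ j) := by
    intro u hu
    have h1 : Tendsto (fun j : ℕ => ‖u‖ ^ (n ^ j)) atTop atTop :=
      (tendsto_pow_atTop_atTop_of_one_lt hu).comp
        (tendsto_pow_atTop_atTop_of_one_lt (show 1 < n by omega))
    exact h1.eventually_gt_atTop _
  obtain ⟨j, h1, h2⟩ := ((hlim w hw).and (hlim w' hw')).exists
  exact key j w w' hw hw' h1 h2 h

end PLY
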